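import Pool.Agent.H367.OS.GSer

/-!
# Representations in the cohomology of proper smooth schemes, without twists, and one sequence of cubics

A relation `r` of size `m` is one of the equations `x_i x_j = x_l`, `x_i + x_j = x_l`, `x_i = 1` with
`i, j, l < m`; the relations are numbered, the number of `r` is `ν(r)` (`relNum`). Let `G_m` be the
following polynomial with integral coefficients (`univG ℤ m`). There are variables `x_i` and `z_ij` for
`i, j < m`, a variable `c_r` for every relation `r`, and variables `y_{r,l}` for all relations `r` and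
`l < (m + 1) 2 ^ ν(r)`. The equations (`eqnG`) are

  `z_ij - x_i x_j`,  `c_r ^ 2 - c_r`,  `c_r ρ_r`,  `(1 - c_r) y_{r,l}`,

where `ρ_r` is the linear polynomial `z_ij - x_l`, `x_i + x_j - x_l` or `x_i - 1` of the relation.
`G_m` is the sum of the equations multiplied by further variables `t_e`, one for each equation. It has
degree three. Let `C_m` be the affine cubic hypersurface `G_m = 1` (`cubG R m` over the ring `R`); it is
smooth over the integers.

Let `F` be a number field and `l` a prime number. Let `A` be the abelian category of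
finite-dimensional continuous representations of `G_F` over `ℚ̄_l`, with the Tate twists `N ↦ N(a)`.
For a separated scheme `X` of finite type over `ℚ` let `D.G w j X = Gr^W_w H^j_c(X_ℚ̄, ℚ̄_l)` be the
part of weight `w` of the cohomology with compact supports, restricted to `G_F`; for smooth projective
`Y` it is `H^j(Y_ℚ̄, ℚ̄_l)` if `j = w`, and zero otherwise.

Let `ρ` be an irreducible representation, that is a simple object of `A`. Condition 3. of question Q1
for `ρ` (there are a proper smooth scheme `X` over `F` and an `i ≥ 0` such that `ρ` is a subquotient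
of `H^i(X_F̄, ℚ̄_l)`) is equivalent to `Effective D ρ`: `ρ` is a subquotient of `H^i(Y_ℚ̄, ℚ̄_l)` for
a smooth projective scheme `Y` over `ℚ`. (A proper smooth scheme is dominated by a smooth projective
one, and a smooth projective scheme over `F` is a union of connected components of `Y_F` for the same
scheme `Y` over `ℚ`.) No Tate twist is allowed here.

**Theorem.** Let `E_m` be the number of the equations, and for `N ∈ ℕ` let `e = (m + 1) N + E_m - 1`
(`esh m N`).

(1) An irreducible representation `ρ` is a subquotient of `H^w(Y_ℚ̄, ℚ̄_l)` for some smooth projective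
scheme `Y` over `ℚ` if and only if for all large `m` it is a subquotient of the single representation
`Gr^W_{w+2e} H^{w+2e+1}_c(C_m)(e)`, for some `N`; the same with `H^w(Y)(t)` and the twist `t + e`.

(2) Condition 3. of question Q1 for `ρ` is therefore equivalent to `InPieces D ρ`: for some `w` and all
large `m`, the representation `ρ` is a subquotient of `Gr^W_{w+2e} H^{w+2e+1}_c(C_m)(e)` for some `N`.
Question Q1 (the equivalence of the conditions 1., 2., 3. for all `ρ` in the class considered there) is
equivalent to the equivalence of the conditions 1., 2. and `InPieces D ρ`.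

(3) Up to Tate twists: `ρ` is a subquotient of some `H^i(Y)(t)` if and only if for all large `m` it is
a subquotient of `Gr^W_{j-1} H^j_c(C_m)(t)` for some `j` and `t`, and if and only if this is true for
some `m`.

(4) `G_m` has integral coefficients and degree at most three, and `C_m` is smooth over all rings.

The hypotheses on the category and on the pieces are standard (`IsGeo`): exact sequences, affine
bundles, the cohomology of affine spaces, the weights of `H^j_c(X)` are between `0` and `2 dim X`,
`Gr^W_w H^j_c(X)` is a subquotient of `H^w(Y)` for some smooth projective `Y` (weight spectral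
sequence), and every smooth projective scheme has an affine bundle whose total space is affine
(Jouanolou). The category need not be semisimple.

Idea of the proof. The projection of `C_m` to the affine space with the coordinates `x, z, c, y` is an
affine bundle over the complement of the zero set `W_m` of the equations. The scheme `W_m` is the
disjoint union, over all sets `s` of relations (`c_r = 1` for `r ∈ s` and `c_r = 0` for the others), of
the products `X_s × 𝔸 ^ ((m + 1) N(s))`, where `X_s` is the affine scheme defined by the relations in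
`s` and `N(s) = ∑_{r ∈ s} 2 ^ ν(r)`. The numbers `N(s)` are different, and the weights of the
cohomology of `X_s` are between `0` and `2 m`. So the part of weight `w + 2 (m + 1) N(s)`,
`0 ≤ w ≤ 2 m + 1`, of the cohomology of `W_m` is the twist of the part of weight `w` of the cohomology of
`X_s`, and it is different from the weight of the cohomology of the affine space. Every affine scheme of
finite type over a prime field is an `X_s`, for all large `m`. The pieces of the cohomology of an
arbitrary scheme are direct factors of those of a disjoint union of affine schemes.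

The universal system of relations is the one of helper854 (`Pool.Agent.H854.SQ`).
-/

set_option autoImplicit false

open CategoryTheory CategoryTheory.Limits AlgebraicGeometry Pool.Agent.Y116.UV Pool.Agent.Z125.UN
  Pool.Agent.Q193.LT Pool.Agent.H854.SQ Pool.Agent.H367.OS

universe v u



namespace Pool.Agent.Results.MP_395897_nt.PiecesOfOneSequence

/-- The representation `ρ` is a subquotient of the cohomology of a smooth projective scheme. -/
def Effective {A : Type u} [Category.{v} A] (D : Pieces ℚ A) (ρ : A) : Prop :=
  ∃ (Y : Sch ℚ) (i : ℕ), SmoothProj Y ∧ SubQuot ρ (D.G i i Y)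

/-- For some `w` and all large `m` the representation `ρ` is a subquotient of the single representation
`Gr^W_{w+2e} H^{w+2e+1}_c(e)` of the hypersurface `G_m = 1`, for some `N`. -/
def InPieces {A : Type u} [Category.{v} A] (D : Pieces ℚ A) (ρ : A) : Prop :=
  ∃ w : ℕ, ∀ᶠ m in Filter.atTop, ∃ N : ℕ, SubQuot ρ ((D.tw (esh m N)).obj
    (D.G (w + 2 * esh m N) (w + 2 * esh m N + 1) (cubG ℚ m)))

/-- **Effective geometric origin and one sequence of cubic hypersurfaces over the integers.** See the
explanations above. -/
theorem result {A : Type u} [Category.{v} A] [Abelian A] {D : Pieces ℚ A} (h : IsGeo D) :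
    (∀ (ρ : A) [Simple ρ] (w : ℕ) (t : ℤ),
      (∃ Y : Sch ℚ, SmoothProj Y ∧ SubQuot ρ ((D.tw t).obj (D.G w w Y))) ↔
        ∀ᶠ m in Filter.atTop, ∃ N : ℕ, SubQuot ρ ((D.tw (t + esh m N)).obj
          (D.G (w + 2 * esh m N) (w + 2 * esh m N + 1) (cubG ℚ m)))) ∧
    (∀ (ρ : A) [Simple ρ], Effective D ρ ↔ InPieces D ρ) ∧
    (∀ (class_ cond1 cond2 cond3 : A → Prop), (∀ ρ, class_ ρ → Simple ρ) →
      (∀ ρ, class_ ρ → (cond3 ρ ↔ Effective D ρ)) →
      ((∀ ρ, class_ ρ → List.TFAE [cond1 ρ, cond2 ρ, cond3 ρ]) ↔
        ∀ ρ, class_ ρ → List.TFAE [cond1 ρ, cond2 ρ, InPieces D ρ])) ∧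
    (∀ ρ : A, List.TFAE [
      FromGeometry D ρ,
      ∀ᶠ m in Filter.atTop, OccursIn D m ρ,
      ∃ m, OccursIn D m ρ,
      ∃ (X : Sch ℚ) (w j t : ℤ), FT True X ∧ SubQuot ρ ((D.tw t).obj (D.G w j X))]) ∧
    ∀ m : ℕ, (univG ℤ m).totalDegree ≤ 3 ∧
      ∀ (R : Type) [CommRing R], MvPolynomial.map (Int.castRingHom R) (univG ℤ m) = univG R m ∧
        Smooth (cubG R m).hom := by
  have h1 : ∀ (ρ : A) [Simple ρ] (w : ℕ) (t : ℤ),
      (∃ Y : Sch ℚ, SmoothProj Y ∧ SubQuot ρ ((D.tw t).obj (D.G w w Y))) ↔
        ∀ᶠ m in Filter.atTop, ∃ N : ℕ, SubQuot ρ ((D.tw (t + esh m N)).obj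
          (D.G (w + 2 * esh m N) (w + 2 * esh m N + 1) (cubG ℚ m))) :=
    fun ρ _ w t => simple_weight isPrimeField_rat h ρ w t
  have h2 : ∀ (ρ : A) [Simple ρ], Effective D ρ ↔ InPieces D ρ := by
    intro ρ _
    have h3 : ∀ w : ℕ, (∃ Y : Sch ℚ, SmoothProj Y ∧ SubQuot ρ (D.G w w Y)) ↔
        ∃ Y : Sch ℚ, SmoothProj Y ∧ SubQuot ρ ((D.tw 0).obj (D.G w w Y)) := by
      intro w
      refine exists_congr fun Y => and_congr_right fun _ => ?_
      obtain ⟨e⟩ := h.pieces.tw_nil (D.G w w Y)
      exact ⟨fun g => g.trans (SubQuot.of_iso e.symm), fun g => g.trans (SubQuot.of_iso e)⟩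
    have h4 : Effective D ρ ↔ ∃ w : ℕ, ∃ Y : Sch ℚ, SmoothProj Y ∧ SubQuot ρ (D.G w w Y) :=
      ⟨fun ⟨Y, i, g⟩ => ⟨i, Y, g⟩, fun ⟨i, Y, g⟩ => ⟨Y, i, g⟩⟩
    rw [h4]
    refine exists_congr fun w => ?_
    rw [h3 w, h1 ρ w 0]
    simp only [zero_add]
  refine ⟨h1, h2, ?_, from_geometry isPrimeField_rat h, cubG_facts⟩
  intro class_ cond1 cond2 cond3 hs hc
  refine forall₂_congr fun ρ hρ => ?_
  have := hs ρ hρ
  have h3 : cond3 ρ ↔ InPieces D ρ := (hc ρ hρ).trans (h2 ρ)
  rw [propext h3]

end Pool.Agent.Results.MP_395897_nt.PiecesOfOneSequence
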